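import Pool.Agent.H53.MW.Targets
import Pool.Agent.H68.SHL.BLM

/-!
MP_c62aed_lc, permanent lines and work memory: row TRE. A decision tree for a spread set which is not
hit has many leaves.
-/

set_option autoImplicit false

namespace Pool.Agent.H39.MWK

open Finset
open Pool.Agent.H53.MC (Clause Falsified SatBy Line Circuit U Viol toC scope Ins cnt H1 Covers InR
  Bad cf)
open Pool.Agent.H15.FLX (Scopes Signs clause cnf Few en idx FG BR)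
open Pool.Agent.H97.SHL (DT bl)
open Pool.Agent.H53.MW

section

variable {n M k m : ℕ} (g : Fin M → Fin k → Fin n) (F : Fin m → U M k)

theorem tre_mem_up {𝒟 : Finset (Finset (Fin n → Bool) × Finset (Fin n))} {x : Fin n → Bool} :
    x ∈ up g F 𝒟 ↔ ∃ p ∈ 𝒟, (¬ ∃ y ∈ p.1, Hit g F (p.2, y)) ∧ x ∈ p.1 := by
  classical
  unfold up
  rw [mem_biUnion]
  constructor
  · rintro ⟨p, hp, hx⟩
    rw [mem_filter] at hp
    exact ⟨p, hp.1, hp.2, hx⟩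
  · rintro ⟨p, hp, hh, hx⟩
    exact ⟨p, mem_filter.2 ⟨hp, hh⟩, hx⟩

theorem tre_mem_hp {𝒟 : Finset (Finset (Fin n → Bool) × Finset (Fin n))} {x : Fin n → Bool} :
    x ∈ hp g F 𝒟 ↔ ∃ p ∈ 𝒟, (∃ y ∈ p.1, Hit g F (p.2, y)) ∧ x ∈ p.1 := by
  classical
  unfold hp
  rw [mem_biUnion]
  constructor
  · rintro ⟨p, hp, hx⟩
    rw [mem_filter] at hp
    exact ⟨p, hp.1, hp.2, hx⟩
  · rintro ⟨p, hp, hh, hx⟩
    exact ⟨p, mem_filter.2 ⟨hp, hh⟩, hx⟩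

theorem tre_split {𝒟 : Finset (Finset (Fin n → Bool) × Finset (Fin n))}
    {R : Finset (Fin n → Bool)} {x : Fin n → Bool} (hx : x ∈ R) :
    x ∈ up g F 𝒟 ∨ x ∈ hp g F 𝒟 ∨ x ∈ R \ 𝒟.biUnion Prod.fst := by
  by_cases h : x ∈ 𝒟.biUnion Prod.fst
  · obtain ⟨p, hp, hxp⟩ := mem_biUnion.1 h
    by_cases hh : ∃ y ∈ p.1, Hit g F (p.2, y)
    · exact Or.inr (Or.inl ((tre_mem_hp g F).2 ⟨p, hp, hh, hxp⟩))
    · exact Or.inl ((tre_mem_up g F).2 ⟨p, hp, hh, hxp⟩)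
  · exact Or.inr (Or.inr (mem_sdiff.2 ⟨hx, h⟩))

open Classical in
theorem tre_cross {𝒟 : Finset (Finset (Fin n → Bool) × Finset (Fin n))}
    (hdis : ∀ p ∈ 𝒟, ∀ p' ∈ 𝒟, p ≠ p' → Disjoint p.1 p'.1) (H : Finset (Fin n → Bool)) (a : ℕ)
    (hH : ∀ p ∈ 𝒟, (¬ ∃ y ∈ p.1, Hit g F (p.2, y)) → a * (p.1 ∩ H).card ≤ p.1.card) :
    a * (up g F 𝒟 ∩ H).card ≤ (up g F 𝒟).card := by
  set 𝒰 := 𝒟.filter fun p => ¬ ∃ x ∈ p.1, Hit g F (p.2, x) with h𝒰
  have e : up g F 𝒟 = 𝒰.biUnion Prod.fst := by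
    unfold up
    rw [h𝒰]
  have e1 : (up g F 𝒟).card = ∑ p ∈ 𝒰, p.1.card := by
    rw [e]
    refine card_biUnion fun p hp p' hp' hne => ?_
    exact hdis p (mem_filter.1 (mem_coe.1 hp)).1 p' (mem_filter.1 (mem_coe.1 hp')).1 hne
  have e2 : up g F 𝒟 ∩ H ⊆ 𝒰.biUnion fun p => p.1 ∩ H := by
    intro x hx
    rw [mem_inter, e, mem_biUnion] at hx
    obtain ⟨⟨p, hp, hxp⟩, hxH⟩ := hx
    exact mem_biUnion.2 ⟨p, hp, mem_inter.2 ⟨hxp, hxH⟩⟩
  have e3 : (up g F 𝒟 ∩ H).card ≤ ∑ p ∈ 𝒰, (p.1 ∩ H).card :=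
    (card_le_card e2).trans card_biUnion_le
  calc a * (up g F 𝒟 ∩ H).card ≤ a * ∑ p ∈ 𝒰, (p.1 ∩ H).card := Nat.mul_le_mul_left _ e3
    _ = ∑ p ∈ 𝒰, a * (p.1 ∩ H).card := mul_sum _ _ _
    _ ≤ ∑ p ∈ 𝒰, p.1.card := by
        refine sum_le_sum fun p hp => ?_
        rw [h𝒰, mem_filter] at hp
        exact hH p hp.1 hp.2
    _ = _ := e1.symm

/-- one query -/
theorem tre_node {d s₀ θ τ a : ℕ} {R R1 R2 : Finset (Fin n → Bool)}
    {𝒟 𝒟1 𝒟2 : Finset (Finset (Fin n → Bool) × Finset (Fin n))}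
    (hRR : ∀ x ∈ R, x ∈ R1 ∨ x ∈ R2)
    (hD : Dec g d s₀ θ τ R 𝒟)
    (hD1 : Dec g d s₀ θ τ R1 𝒟1)
    (hD2 : Dec g d s₀ θ τ R2 𝒟2)
    (h1 : ∀ p ∈ 𝒟, Rg g F a p 𝒟1)
    (h2 : ∀ p ∈ 𝒟, Rg g F a p 𝒟2) (ha : 1 ≤ a) :
    ((up g F 𝒟).card : ℝ) ≤ (up g F 𝒟1).card +
      (up g F 𝒟2).card + 2 / a * (up g F 𝒟).card +
      2 * (τ : ℝ) := by
  have c1 := tre_cross g F hD.dis (hp g F 𝒟1) a fun p hp hh =>
    (h1 p hp).resolve_left hh
  have c2 := tre_cross g F hD.dis (hp g F 𝒟2) a fun p hp hh =>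
    (h2 p hp).resolve_left hh
  have hsub : up g F 𝒟 ⊆
      (up g F 𝒟1 ∪ up g F 𝒟2) ∪
      ((up g F 𝒟 ∩ hp g F 𝒟1) ∪
        (up g F 𝒟 ∩ hp g F 𝒟2)) ∪
      ((R1 \ 𝒟1.biUnion Prod.fst) ∪ (R2 \ 𝒟2.biUnion Prod.fst)) := by
    intro x hx
    have hxR : x ∈ R := by
      obtain ⟨p, hp, -, hxp⟩ := (tre_mem_up g F).1 hx
      exact hD.sub p hp hxp
    simp only [mem_union, mem_inter]
    rcases hRR x hxR with h | h
    · rcases tre_split g F (𝒟 := 𝒟1) h with h' | h' | h'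
      · exact Or.inl (Or.inl (Or.inl h'))
      · exact Or.inl (Or.inr (Or.inl ⟨hx, h'⟩))
      · exact Or.inr (Or.inl h')
    · rcases tre_split g F (𝒟 := 𝒟2) h with h' | h' | h'
      · exact Or.inl (Or.inl (Or.inr h'))
      · exact Or.inl (Or.inr (Or.inr ⟨hx, h'⟩))
      · exact Or.inr (Or.inr h')
  have hc := card_le_card hsub
  have hc' : (up g F 𝒟).card ≤
      (up g F 𝒟1).card + (up g F 𝒟2).card +
      ((up g F 𝒟 ∩ hp g F 𝒟1).card +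
        (up g F 𝒟 ∩ hp g F 𝒟2).card) +
      (τ + τ) := by
    refine hc.trans ((card_union_le _ _).trans (Nat.add_le_add ((card_union_le _ _).trans
      (Nat.add_le_add (card_union_le _ _) (card_union_le _ _))) ((card_union_le _ _).trans
      (Nat.add_le_add hD1.rest hD2.rest))))
  have haR : (0 : ℝ) < a := by exact_mod_cast ha
  have d1 : ((up g F 𝒟 ∩ hp g F 𝒟1).card : ℝ) ≤
      1 / a * (up g F 𝒟).card := by
    have : (a : ℝ) * (up g F 𝒟 ∩ hp g F 𝒟1).card ≤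
        (up g F 𝒟).card := by exact_mod_cast c1
    rw [one_div, ← div_eq_inv_mul, le_div_iff₀ haR]
    linarith
  have d2 : ((up g F 𝒟 ∩ hp g F 𝒟2).card : ℝ) ≤
      1 / a * (up g F 𝒟).card := by
    have : (a : ℝ) * (up g F 𝒟 ∩ hp g F 𝒟2).card ≤
        (up g F 𝒟).card := by exact_mod_cast c2
    rw [one_div, ← div_eq_inv_mul, le_div_iff₀ haR]
    linarith
  have hcR : ((up g F 𝒟).card : ℝ) ≤
      (up g F 𝒟1).card + (up g F 𝒟2).card +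
      (((up g F 𝒟 ∩ hp g F 𝒟1).card : ℝ) +
        (up g F 𝒟 ∩ hp g F 𝒟2).card) +
      ((τ : ℝ) + (τ : ℝ)) := by exact_mod_cast hc'
  have e : (2 : ℝ) / a * (up g F 𝒟).card =
      1 / a * (up g F 𝒟).card + 1 / a * (up g F 𝒟).card := by ring
  rw [e]
  linarith

end

attribute [local irreducible] dc

theorem pf_TRE (_hINV : T_INV) (hSZ : T_SZ) (hSC : T_SC) (hDEC : T_DEC) : T_TRE := by
  intro n M k m g w s₀ d r hg hH1 hwn hn hr 𝒬 F A x Q S hSp hRgl hNH hDT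
  have hθ : 1 ≤ th0 n w := Nat.le_add_left _ _
  have hDec := hDEC g d s₀ (th0 n w) hθ
  set θ := th0 n w with hθdef
  set τ : ℕ := θ * 2 ^ (d * s₀) with hτ
  set a : ℕ := 4 * (n + 1) with ha
  have ha1 : 1 ≤ a := by omega
  have haR : (0 : ℝ) < a := by exact_mod_cast ha1
  have haR' : (a : ℝ) = 4 * ((n : ℝ) + 1) := by
    rw [ha]
    push_cast
    ring
  have hn0 : (0 : ℝ) ≤ n := Nat.cast_nonneg n
  have hε : (2 : ℝ) / a = 1 / (2 * ((n : ℝ) + 1)) := by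
    rw [haR']
    field_simp
    ring
  have hε1 : (2 : ℝ) / a ≤ 1 := by
    rw [div_le_one haR, haR']
    linarith
  have hε0 : (0 : ℝ) < 2 / a := by positivity
  -- leaves
  have hleaf : ∀ R : Finset (Fin n → Bool), Lfc g F r R → up g F (dc g d s₀ θ R) = ∅ := by
    rintro R ⟨T, hT1, hT2, hT3⟩
    rw [eq_empty_iff_forall_notMem]
    intro y hy
    obtain ⟨p, hp, hh, -⟩ := (tre_mem_up g F).1 hy
    have hb := (hDec R).big p hp
    have hne : p.1.Nonempty := card_pos.1 (by omega)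
    obtain ⟨z, hz⟩ := hne
    have hspz := (hDec R).spr p hp z hz
    have hw : p.2.card < w := hSZ g d s₀ w (p.2, z) p.1 hwn hspz (by
      have : 2 ^ (n - w) < θ := by
        rw [hθdef]
        exact Nat.lt_succ_self _
      omega)
    obtain ⟨c, hc, hi⟩ := hSC g d s₀ w hg hH1 (p.2, z) p.1 hspz hw T (by omega)
      (fun v hv => hT3 v ((hDec R).sub p hp hv))
    obtain ⟨j, hj⟩ := hT1 c hc
    exact hh ⟨z, hz, j, hj ▸ hi⟩
  -- trees
  have htree : ∀ (R : Finset (Fin n → Bool)) (t' S' : ℕ), DT 𝒬 (Lfc g F r) R t' S' →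
      bl 𝒬 t' {R} ⊆ bl 𝒬 n {Q} → (1 - 2 / (a : ℝ)) ^ t' * (up g F (dc g d s₀ θ R)).card ≤
        2 * (τ : ℝ) * ((S' : ℝ) - 1) := by
    intro R t' S' hT
    induction hT with
    | leaf R t' hL =>
      intro _
      rw [hleaf R hL]
      simp
    | node R B t' s₁ s₂ hB _ _ ih1 ih2 =>
      intro hb
      have hBLM := Pool.Agent.H68.SHL.pf_BLM (Fin n → Bool) 𝒬 {R} {R} t' t' (Subset.refl _)
        le_rfl
      have hb0 := Pool.Agent.H68.SHL.pf_BLM (Fin n → Bool) 𝒬 {R} {R} (t' + 1) (t' + 1)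
        (Subset.refl _) le_rfl
      obtain ⟨b1, b2⟩ := hBLM.2.2.1 R (mem_singleton_self R) B hB
      have b1' := b1.trans hb
      have b2' := b2.trans hb
      have i1 := ih1 b1'
      have i2 := ih2 b2'
      have m0 : R ∈ bl 𝒬 n {Q} := hb (hb0.2.1 (mem_singleton_self R))
      have m1 : R ∩ B ∈ bl 𝒬 n {Q} := b1' ((Pool.Agent.H68.SHL.pf_BLM (Fin n → Bool) 𝒬 {R ∩ B}
        {R ∩ B} t' t' (Subset.refl _) le_rfl).2.1 (mem_singleton_self _))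
      have m2 : R \ B ∈ bl 𝒬 n {Q} := b2' ((Pool.Agent.H68.SHL.pf_BLM (Fin n → Bool) 𝒬 {R \ B}
        {R \ B} t' t' (Subset.refl _) le_rfl).2.1 (mem_singleton_self _))
      have hN := tre_node g F (R := R) (R1 := R ∩ B) (R2 := R \ B) (a := a) (fun y hy => by
        by_cases h : y ∈ B
        · exact Or.inl (mem_inter.2 ⟨hy, h⟩)
        · exact Or.inr (mem_sdiff.2 ⟨hy, h⟩)) (hDec R) (hDec (R ∩ B)) (hDec (R \ B))
        (fun p hp => hRgl.node R m0 _ m1 p hp) (fun p hp => hRgl.node R m0 _ m2 p hp) ha1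
      have hN' : (1 - 2 / (a : ℝ)) * (up g F (dc g d s₀ θ R)).card ≤
          (up g F (dc g d s₀ θ (R ∩ B))).card + (up g F (dc g d s₀ θ (R \ B))).card +
          2 * (τ : ℝ) := by
        rw [sub_mul, one_mul]
        linarith
      have hx0 : 0 ≤ 1 - 2 / (a : ℝ) := by linarith
      have hx1 : (1 - 2 / (a : ℝ)) ^ t' ≤ 1 := pow_le_one₀ hx0 (by linarith)
      have hx2 : 0 ≤ (1 - 2 / (a : ℝ)) ^ t' := pow_nonneg hx0 _
      have hτ0 : (0 : ℝ) ≤ 2 * (τ : ℝ) := by positivity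
      calc (1 - 2 / (a : ℝ)) ^ (t' + 1) * (up g F (dc g d s₀ θ R)).card
          = (1 - 2 / (a : ℝ)) ^ t' * ((1 - 2 / (a : ℝ)) * (up g F (dc g d s₀ θ R)).card) := by
            rw [pow_succ, mul_assoc]
        _ ≤ (1 - 2 / (a : ℝ)) ^ t' * ((up g F (dc g d s₀ θ (R ∩ B))).card +
            (up g F (dc g d s₀ θ (R \ B))).card + 2 * (τ : ℝ)) :=
            mul_le_mul_of_nonneg_left hN' hx2
        _ = (1 - 2 / (a : ℝ)) ^ t' * (up g F (dc g d s₀ θ (R ∩ B))).card +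
            (1 - 2 / (a : ℝ)) ^ t' * (up g F (dc g d s₀ θ (R \ B))).card +
            (1 - 2 / (a : ℝ)) ^ t' * (2 * (τ : ℝ)) := by ring
        _ ≤ 2 * (τ : ℝ) * ((s₁ : ℝ) - 1) + 2 * (τ : ℝ) * ((s₂ : ℝ) - 1) + 1 * (2 * (τ : ℝ)) :=
            add_le_add (add_le_add i1 i2) (mul_le_mul_of_nonneg_right hx1 hτ0)
        _ = 2 * (τ : ℝ) * (((s₁ + s₂ : ℕ) : ℝ) - 1) := by push_cast; ring
  -- root
  have hroot : a * (Q ∩ hp g F (dc g d s₀ θ Q)).card ≤ Q.card := by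
    rcases hRgl.root with h | h
    · exfalso
      obtain ⟨y, hy, j, hj1, hj2⟩ := h
      refine hNH ⟨j, hj1, fun i => ?_⟩
      have h1 : y (g (F j).1 i) = (F j).2 i := hj2 i
      have h2 : y (g (F j).1 i) = x (g (F j).1 i) :=
        hSp.inc y hy _ (hj1 (mem_image_of_mem _ (mem_univ i)))
      show x (g (F j).1 i) = (F j).2 i
      rw [← h2, h1]
    · exact h
  have hQc : Q.card ≤ (up g F (dc g d s₀ θ Q)).card + (Q ∩ hp g F (dc g d s₀ θ Q)).card + τ := by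
    have hsub : Q ⊆ (up g F (dc g d s₀ θ Q) ∪ (Q ∩ hp g F (dc g d s₀ θ Q))) ∪
        (Q \ (dc g d s₀ θ Q).biUnion Prod.fst) := by
      intro y hy
      simp only [mem_union, mem_inter]
      rcases tre_split g F (𝒟 := dc g d s₀ θ Q) hy with h | h | h
      · exact Or.inl (Or.inl h)
      · exact Or.inl (Or.inr ⟨hy, h⟩)
      · exact Or.inr h
    exact (card_le_card hsub).trans ((card_union_le _ _).trans
      (Nat.add_le_add (card_union_le _ _) (hDec Q).rest))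
  have hT := htree Q n S hDT (Subset.refl _)
  have hx0 : 0 ≤ 1 - 2 / (a : ℝ) := by linarith
  have hx2 : 0 ≤ (1 - 2 / (a : ℝ)) ^ n := pow_nonneg hx0 _
  have hx1 : (1 - 2 / (a : ℝ)) ^ n ≤ 1 := pow_le_one₀ hx0 (by linarith)
  have hbern : (1 : ℝ) / 2 ≤ (1 - 2 / (a : ℝ)) ^ (n + 1) := by
    have h := one_add_mul_le_pow (a := -(2 / (a : ℝ))) (by linarith) (n + 1)
    have e1 : (1 : ℝ) + ((n + 1 : ℕ) : ℝ) * -(2 / (a : ℝ)) = 1 / 2 := by
      rw [hε]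
      push_cast
      field_simp
      ring
    have e2 : (1 : ℝ) + -(2 / (a : ℝ)) = 1 - 2 / (a : ℝ) := by ring
    rw [e1, e2] at h
    exact h
  have hrootR : ((Q ∩ hp g F (dc g d s₀ θ Q)).card : ℝ) ≤ 2 / a * Q.card := by
    have h1 : (a : ℝ) * (Q ∩ hp g F (dc g d s₀ θ Q)).card ≤ Q.card := by exact_mod_cast hroot
    have h2 : ((Q ∩ hp g F (dc g d s₀ θ Q)).card : ℝ) ≤ (Q.card : ℝ) / a := by
      rw [le_div_iff₀ haR]
      linarith
    have h3 : (0 : ℝ) ≤ (Q.card : ℝ) / a := by positivity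
    calc ((Q ∩ hp g F (dc g d s₀ θ Q)).card : ℝ) ≤ (Q.card : ℝ) / a := h2
      _ ≤ 2 * ((Q.card : ℝ) / a) := by linarith
      _ = 2 / a * Q.card := by ring
  have hQcR : (Q.card : ℝ) ≤ (up g F (dc g d s₀ θ Q)).card +
      ((Q ∩ hp g F (dc g d s₀ θ Q)).card : ℝ) + τ := by exact_mod_cast hQc
  have hA : (1 - 2 / (a : ℝ)) * Q.card ≤ (up g F (dc g d s₀ θ Q)).card + τ := by
    rw [sub_mul, one_mul]
    linarith
  have hτ0 : (0 : ℝ) ≤ τ := Nat.cast_nonneg _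
  have hfin : (1 : ℝ) / 2 * Q.card ≤ 2 * (τ : ℝ) * S := by
    calc (1 : ℝ) / 2 * Q.card ≤ (1 - 2 / (a : ℝ)) ^ (n + 1) * Q.card :=
          mul_le_mul_of_nonneg_right hbern (Nat.cast_nonneg _)
      _ = (1 - 2 / (a : ℝ)) ^ n * ((1 - 2 / (a : ℝ)) * Q.card) := by rw [pow_succ, mul_assoc]
      _ ≤ (1 - 2 / (a : ℝ)) ^ n * ((up g F (dc g d s₀ θ Q)).card + τ) :=
          mul_le_mul_of_nonneg_left hA hx2
      _ = (1 - 2 / (a : ℝ)) ^ n * (up g F (dc g d s₀ θ Q)).card +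
          (1 - 2 / (a : ℝ)) ^ n * τ := by ring
      _ ≤ 2 * (τ : ℝ) * ((S : ℝ) - 1) + 1 * τ :=
          add_le_add hT (mul_le_mul_of_nonneg_right hx1 hτ0)
      _ ≤ 2 * (τ : ℝ) * S := by linarith
  have hfin2 : (Q.card : ℝ) ≤ 4 * (τ : ℝ) * S := by linarith
  have : (Q.card : ℝ) ≤ ((4 * τ * S : ℕ) : ℝ) := by
    push_cast
    exact hfin2
  exact_mod_cast this

end Pool.Agent.H39.MWK
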